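import Pool.Agent.Y951.SQ.StmWA

/-! Project SQ: a rational polynomial with given signs at finitely many real numbers. -/

set_option autoImplicit false
set_option linter.all false

namespace Pool.Agent.Y427.SQ

open Pool.Agent.Y951.SQ Polynomial

theorem exists_gap (y : ℝ) (F : Finset ℝ) : ∃ δ : ℝ, 0 < δ ∧ ∀ x ∈ F, x ≠ y → δ ≤ |x - y| := by
  classical
  induction F using Finset.induction_on with
  | empty => exact ⟨1, one_pos, fun x hx => absurd hx (Finset.notMem_empty x)⟩
  | insert a F ha ih =>
    obtain ⟨δ, h0, h⟩ := ih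
    by_cases hay : a = y
    · refine ⟨δ, h0, fun x hx hxy => ?_⟩
      rcases Finset.mem_insert.1 hx with rfl | hx
      · exact absurd hay hxy
      · exact h x hx hxy
    · have h1 : 0 < |a - y| := abs_pos.2 (sub_ne_zero.2 hay)
      refine ⟨min δ |a - y|, lt_min h0 h1, fun x hx hxy => ?_⟩
      rcases Finset.mem_insert.1 hx with rfl | hx
      · exact min_le_right _ _
      · exact (min_le_left _ _).trans (h x hx hxy)

theorem exists_one (y : ℝ) (F : Finset ℝ) : ∃ p : Polynomial ℚ,
    Polynomial.aeval y p < 0 ∧ ∀ x ∈ F, x ≠ y → 0 < Polynomial.aeval x p := by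
  obtain ⟨δ, h0, h⟩ := exists_gap y F
  obtain ⟨a, ha1, ha2⟩ := exists_rat_btwn (show y - δ < y by linarith)
  obtain ⟨b, hb1, hb2⟩ := exists_rat_btwn (show y < y + δ by linarith)
  have hv : ∀ x : ℝ, Polynomial.aeval x ((X - C a) * (X - C b) : Polynomial ℚ) =
      (x - (a : ℝ)) * (x - (b : ℝ)) := by
    intro x
    rw [map_mul, map_sub, map_sub, aeval_X, aeval_C, aeval_C]
    rfl
  refine ⟨(X - C a) * (X - C b), ?_, ?_⟩
  · rw [hv]
    exact mul_neg_of_pos_of_neg (by linarith) (by linarith)
  · intro x hx hxy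
    rw [hv]
    rcases le_abs.1 (h x hx hxy) with h1 | h1
    · exact mul_pos (by linarith) (by linarith)
    · exact mul_pos_of_neg_of_neg (by linarith) (by linarith)

theorem t_POLY : S_POLY := by
  classical
  intro F N
  have key : ∀ S : Finset ℝ, S ⊆ F → ∃ p : Polynomial ℚ, ∀ x ∈ F,
      (x ∈ S → Polynomial.aeval x p < 0) ∧ (x ∉ S → 0 < Polynomial.aeval x p) := by
    intro S
    induction S using Finset.induction_on with
    | empty =>
      intro _
      refine ⟨1, fun x _ => ⟨fun h => absurd h (Finset.notMem_empty x), fun _ => ?_⟩⟩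
      rw [map_one]
      exact one_pos
    | insert y S hy ih =>
      intro hS
      obtain ⟨p, hp⟩ := ih fun x hx => hS (Finset.mem_insert_of_mem hx)
      obtain ⟨q, hq1, hq2⟩ := exists_one y F
      refine ⟨q * p, fun x hx => ⟨fun h => ?_, fun h => ?_⟩⟩
      · rw [map_mul]
        by_cases hxy : x = y
        · subst hxy
          exact mul_neg_of_neg_of_pos hq1 ((hp x hx).2 hy)
        · have hxS : x ∈ S := by
            rcases Finset.mem_insert.1 h with h | h
            · exact absurd h hxy
            · exact h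
          exact mul_neg_of_pos_of_neg (hq2 x hx hxy) ((hp x hx).1 hxS)
      · rw [map_mul]
        have hxy : x ≠ y := fun h' => h (by rw [h']; exact Finset.mem_insert_self _ _)
        have hxS : x ∉ S := fun h' => h (Finset.mem_insert_of_mem h')
        exact mul_pos (hq2 x hx hxy) ((hp x hx).2 hxS)
  obtain ⟨p, hp⟩ := key (F.filter fun x => x ∈ N) (Finset.filter_subset _ _)
  refine ⟨p, fun x hx => ⟨fun h => (hp x hx).1 ?_, fun h => (hp x hx).2 ?_⟩⟩
  · exact Finset.mem_filter.2 ⟨hx, h⟩
  · intro h'
    exact h (Finset.mem_filter.1 h').2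

end Pool.Agent.Y427.SQ
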